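import Mathlib
import Pool.Agent.H.MP_d4ad8c_gt.C
set_option autoImplicit false
namespace Pool.Agent.H.MP_b669e1_gt
open Set Filter Topology MeasureTheory Pool.Agent.H.MP_d4ad8c_gt
open scoped ContDiff

def px (z : Fin 5 → ℝ) : Fin 3 → ℝ := fun i => z (Fin.castAdd 2 i)
def py (z : Fin 5 → ℝ) : Fin 2 → ℝ := fun i => z (Fin.natAdd 3 i)

noncomputable def g (z : Fin 5 → ℝ) : ℝ := (√(nq (px z)) - 1) ^ 2 + nq (py z)

def K : Set (Fin 5 → ℝ) := {z | g z ≤ (1 / 2) ^ 2}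

lemma mp : MeasurePreserving fun z : Fin 5 → ℝ => (px z, py z) := by
  have h1 := (volume_measurePreserving_piCongrLeft (fun _ : Fin (3 + 2) => ℝ)
    finSumFinEquiv).symm _
  have h2 := volume_measurePreserving_sumPiEquivProdPi (fun _ : Fin 3 ⊕ Fin 2 => ℝ)
  exact h2.comp h1

lemma dot_split (ξ z : Fin 5 → ℝ) : ξ ⬝ᵥ z = px ξ ⬝ᵥ px z + py ξ ⬝ᵥ py z :=
  Fin.sum_univ_add (a := 3) (b := 2) fun i => ξ i * z i

lemma g_cont : Continuous g := by
  have c1 := nq_cont (n := 3)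
  have c2 := nq_cont (n := 2)
  unfold g px py; fun_prop

lemma vol (ξ : Fin 5 → ℝ) (t : ℝ) :
    volume (K ∩ {z | ξ ⬝ᵥ z ≤ t}) = volume (T (1 / 2) (px ξ) (py ξ) t) := by
  have c1 := nq_cont (n := 3)
  have c2 := nq_cont (n := 2)
  have hcl : IsClosed (T (1 / 2) (px ξ) (py ξ) t) :=
    (isClosed_le (f := fun p : (Fin 3 → ℝ) × (Fin 2 → ℝ) => (√(nq p.1) - 1) ^ 2 + nq p.2)
      (by fun_prop) (continuous_const (y := (1 / 2 : ℝ) ^ 2))).inter
      (isClosed_le (f := fun p : (Fin 3 → ℝ) × (Fin 2 → ℝ) => px ξ ⬝ᵥ p.1 + py ξ ⬝ᵥ p.2)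
        (by unfold dotProduct; fun_prop) (continuous_const (y := t)))
  rw [← mp.measure_preimage hcl.measurableSet.nullMeasurableSet]
  congr 1
  ext z
  simp only [mem_inter_iff, mem_ofPred_eq, dot_split]
  rfl

lemma algV : ∃ F : MvPolynomial (Fin 5 ⊕ Fin 2) ℝ, F ≠ 0 ∧ ∀ (ξ : Fin 5 → ℝ) (t : ℝ),
    MvPolynomial.eval (Sum.elim ξ ![t, (volume (K ∩ {z | ξ ⬝ᵥ z ≤ t})).toReal]) F = 0 := by
  obtain ⟨F, hF, hE⟩ := main 3 2 (by decide) (by decide) (1 / 2) (by norm_num) (by norm_num)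
  let e : (Fin 3 ⊕ Fin 2) ⊕ Fin 2 ≃ Fin 5 ⊕ Fin 2 := Equiv.sumCongr finSumFinEquiv (Equiv.refl _)
  refine ⟨MvPolynomial.rename e F, fun h => hF (MvPolynomial.rename_injective e e.injective
    (by simpa using h)), fun ξ t => ?_⟩
  rw [MvPolynomial.eval_rename, vol, ← hE (px ξ) (py ξ) t]
  congr 2
  ext x
  rcases x with (x | x) | x <;> rfl

noncomputable def sc (c : ℝ) (F : MvPolynomial (Fin 5 ⊕ Fin 2) ℝ) :
    MvPolynomial (Fin 5 ⊕ Fin 2) ℝ :=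
  MvPolynomial.bind₁ (Sum.elim (fun i => MvPolynomial.C c * MvPolynomial.X (Sum.inl i))
    ![MvPolynomial.C c * MvPolynomial.X (Sum.inr 0), MvPolynomial.X (Sum.inr 1)]) F

lemma sc_eval (c : ℝ) (F : MvPolynomial (Fin 5 ⊕ Fin 2) ℝ) (ξ : Fin 5 → ℝ) (t w : ℝ) :
    MvPolynomial.eval (Sum.elim ξ ![t, w]) (sc c F) =
      MvPolynomial.eval (Sum.elim (c • ξ) ![c * t, w]) F := by
  rw [sc, ← MvPolynomial.coe_aeval_eq_eval, ← MvPolynomial.coe_aeval_eq_eval]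
  simp only [RingHom.coe_coe]
  rw [MvPolynomial.aeval_bind₁]
  congr 2
  ext x
  rcases x with x | x
  · simp
  · fin_cases x <;> simp

lemma nz {F : MvPolynomial (Fin 5 ⊕ Fin 2) ℝ} (hF : F ≠ 0) :
    ∃ ξ t w, MvPolynomial.eval (Sum.elim ξ ![t, w]) F ≠ 0 := by
  by_contra h
  push Not at h
  refine hF (MvPolynomial.funext fun p => ?_)
  rw [map_zero, ← h (fun i => p (Sum.inl i)) (p (Sum.inr 0)) (p (Sum.inr 1))]
  congr 2
  ext x
  rcases x with x | x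
  · rfl
  · fin_cases x <;> rfl

lemma algInt : ∃ Φ : MvPolynomial (Fin 5 ⊕ Fin 2) ℝ,
    (∃ (ξ : Fin 5 → ℝ) (t w : ℝ), ∑ i, ξ i ^ 2 = 1 ∧
      MvPolynomial.eval (Sum.elim ξ ![t, w]) Φ ≠ 0) ∧
    ∀ (ξ : Fin 5 → ℝ) (t : ℝ),
      MvPolynomial.eval (Sum.elim ξ ![t, (volume (K ∩ {z | ξ ⬝ᵥ z ≤ t})).toReal]) Φ = 0 ∧
      MvPolynomial.eval (Sum.elim ξ ![t, (volume (K ∩ {z | t ≤ ξ ⬝ᵥ z})).toReal]) Φ = 0 := by
  obtain ⟨F, hF, hE⟩ := algV
  have h1 : sc (-1) F ≠ 0 := by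
    obtain ⟨ξ, t, w, h⟩ := nz hF
    intro h0
    have := sc_eval (-1) F (-ξ) (-t) w
    rw [h0] at this
    exact h (by simpa using this.symm)
  obtain ⟨ξ, t, w, h⟩ := nz (mul_ne_zero (mul_ne_zero hF h1) (MvPolynomial.X_ne_zero (Sum.inl 0)))
  rw [map_mul, MvPolynomial.eval_X] at h
  have h2 : 0 < nq ξ := lt_of_lt_of_le (sq_pos_of_ne_zero (right_ne_zero_of_mul h)) (sq_le_nq ξ 0)
  have h3 : 0 < √(nq ξ) := Real.sqrt_pos.2 h2
  refine ⟨sc (√(nq ξ)) (F * sc (-1) F), ⟨(√(nq ξ))⁻¹ • ξ, (√(nq ξ))⁻¹ * t, w, ?_, ?_⟩,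
    fun η s => ⟨?_, ?_⟩⟩
  · show nq _ = 1
    rw [nq_smul, inv_pow, Real.sq_sqrt h2.le, inv_mul_cancel₀ h2.ne']
  · rw [sc_eval, smul_inv_smul₀ h3.ne', mul_inv_cancel_left₀ h3.ne']
    exact left_ne_zero_of_mul h
  · have := hE (√(nq ξ) • η) (√(nq ξ) * s)
    simp only [smul_dotProduct, smul_eq_mul, mul_le_mul_iff_right₀ h3] at this
    rw [sc_eval, map_mul, this, zero_mul]
  · have := hE ((-1 : ℝ) • √(nq ξ) • η) (-1 * (√(nq ξ) * s))
    simp only [smul_dotProduct, smul_eq_mul, neg_one_mul, neg_le_neg_iff,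
      mul_le_mul_iff_right₀ h3] at this
    rw [sc_eval, map_mul, sc_eval, neg_one_mul, this, mul_zero]

def U : Set (Fin 5 → ℝ) := {z | 0 < nq (px z)}

lemma U_open : IsOpen U := by
  have c1 := nq_cont (n := 3)
  exact isOpen_lt continuous_const (by unfold px; fun_prop)

lemma g_smooth : ContDiffOn ℝ ∞ g U := by
  have h1 : ContDiff ℝ ∞ fun z : Fin 5 → ℝ => nq (px z) := by unfold nq px; fun_prop
  have h2 : ContDiff ℝ ∞ fun z : Fin 5 → ℝ => nq (py z) := by unfold nq py; fun_prop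
  exact (((h1.contDiffOn.sqrt fun z hz => ne_of_gt hz).sub contDiffOn_const).pow 2).add
    h2.contDiffOn

lemma K_U {z : Fin 5 → ℝ} (hz : z ∈ K) : 1 / 2 ≤ √(nq (px z)) := by
  have : g z ≤ _ := hz
  unfold g at this
  nlinarith [nq_nonneg (py z)]

def app (x : Fin 3 → ℝ) (y : Fin 2 → ℝ) : Fin 5 → ℝ := Fin.append (m := 3) (n := 2) x y

lemma px_app (x : Fin 3 → ℝ) (y : Fin 2 → ℝ) : px (app x y) = x :=
  funext fun i => Fin.append_left _ _ i

lemma py_app (x : Fin 3 → ℝ) (y : Fin 2 → ℝ) : py (app x y) = y :=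
  funext fun i => Fin.append_right _ _ i

lemma app_p (z : Fin 5 → ℝ) : app (px z) (py z) = z := Fin.append_castAdd_natAdd

lemma fd_ne {z : Fin 5 → ℝ} (hz : g z = (1 / 2) ^ 2) : fderiv ℝ g z ≠ 0 := by
  intro h0
  have hr := K_U hz.le
  obtain ⟨r, hr'⟩ : ∃ r, r = √(nq (px z)) := ⟨_, rfl⟩
  rw [← hr'] at hr
  have hU : z ∈ U := Real.sqrt_pos.1 (by rw [← hr']; linarith)
  have hd : HasFDerivAt g (fderiv ℝ g z) z :=
    ((g_smooth.contDiffAt (U_open.mem_nhds hU)).differentiableAt (by simp)).hasFDerivAt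
  obtain ⟨v, hv⟩ : ∃ v, v = app (((r - 1) / r) • px z) (py z) := ⟨_, rfl⟩
  have hl : HasDerivAt (fun s : ℝ => z + s • v) v 0 := by
    simpa using ((hasDerivAt_id (0 : ℝ)).smul_const v).const_add z
  have h1 : HasDerivAt (fun s : ℝ => g (z + s • v)) 0 0 := by
    have h7 : HasFDerivAt g (fderiv ℝ g z) (z + (0 : ℝ) • v) := by simpa using hd
    have := h7.comp_hasDerivAt (f := fun s : ℝ => z + s • v) 0 hl
    rw [h0] at this
    exact this
  have h2 : HasDerivAt (fun s : ℝ => (1 + s) ^ 2 * (1 / 2) ^ 2) (1 / 2) (0 : ℝ) := by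
    refine ((((hasDerivAt_id (0 : ℝ)).const_add 1).pow 2).mul_const ((1 / 2) ^ 2)).congr_deriv ?_
    simp; norm_num
  have h3 : (fun s : ℝ => g (z + s • v)) =ᶠ[𝓝 0] fun s : ℝ => (1 + s) ^ 2 * (1 / 2) ^ 2 := by
    have hc : Continuous fun s : ℝ => 1 + s * ((r - 1) / r) := by fun_prop
    refine (hc.continuousAt.eventually (lt_mem_nhds (show (0 : ℝ) < 1 + 0 * ((r - 1) / r) by
      simp))).mono fun s hs => ?_
    have e1 : px (z + s • v) = (1 + s * ((r - 1) / r)) • px z := by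
      have : px (z + s • v) = px z + s • px v := rfl
      rw [this, hv, px_app]; module
    have e2 : py (z + s • v) = (1 + s) • py z := by
      have : py (z + s • v) = py z + s • py v := rfl
      rw [this, hv, py_app]; module
    show g _ = _
    rw [← hz, g, g, e1, e2, nq_smul, nq_smul, Real.sqrt_mul (sq_nonneg _), Real.sqrt_sq hs.le,
      ← hr']
    have : r ≠ 0 := by linarith
    field_simp; ring
  have := (h1.congr_of_eventuallyEq h3.symm).unique h2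
  norm_num at this

lemma front : frontier K = {z | g z = (1 / 2) ^ 2} := by
  refine (frontier_le_subset_eq g_cont continuous_const).antisymm fun z hz => ?_
  rw [(isClosed_le g_cont continuous_const).frontier_eq]
  refine ⟨le_of_eq hz, fun hi => fd_ne hz (IsLocalMax.fderiv_eq_zero ?_)⟩
  refine mem_of_superset (mem_interior_iff_mem_nhds.1 hi) fun y hy => ?_
  have : g z = _ := hz
  show g y ≤ g z
  rw [this]; exact hy

lemma front_conn : IsConnected (frontier K) := by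
  have h1 : IsConnected ({0}ᶜ : Set (Fin 3 → ℝ)) :=
    isConnected_compl_singleton_of_one_lt_rank (by simp) 0
  have hp : ∀ u ∈ ({0}ᶜ : Set (Fin 3 → ℝ)), 0 < √(nq u) := fun u hu =>
    Real.sqrt_pos.2 (lt_of_le_of_ne (nq_nonneg u) fun h =>
      hu (dotProduct_self_eq_zero.1 (by rw [← nq_dot, ← h])))
  have c1 := nq_cont (n := 3)
  have hi : ContinuousOn (fun u : Fin 3 → ℝ => (√(nq u))⁻¹) {0}ᶜ :=
    (by fun_prop : Continuous fun u : Fin 3 → ℝ => √(nq u)).continuousOn.inv₀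
      fun u hu => (hp u hu).ne'
  have ca : Continuous fun q : (Fin 3 → ℝ) × (Fin 2 → ℝ) => app q.1 q.2 :=
    continuous_pi fun i => by fin_cases i <;> simp [app, Fin.append, Fin.addCases] <;> fun_prop
  have i1 : ContinuousOn (fun q : (Fin 3 → ℝ) × (Fin 3 → ℝ) => (√(nq q.1))⁻¹) ({0}ᶜ ×ˢ {0}ᶜ) :=
    hi.comp continuousOn_fst fun q hq => hq.1
  have i2 : ContinuousOn (fun q : (Fin 3 → ℝ) × (Fin 3 → ℝ) => (√(nq q.2))⁻¹) ({0}ᶜ ×ˢ {0}ᶜ) :=
    hi.comp continuousOn_snd fun q hq => hq.2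
  have := (h1.prod h1).image (fun q => app
    (((1 + 1 / 2 * (√(nq q.2))⁻¹ * q.2 0) * (√(nq q.1))⁻¹) • q.1)
    ((1 / 2 * (√(nq q.2))⁻¹) • Fin.tail q.2)) (ca.comp_continuousOn
      (f := fun q : (Fin 3 → ℝ) × (Fin 3 → ℝ) =>
      (((1 + 1 / 2 * (√(nq q.2))⁻¹ * q.2 0) * (√(nq q.1))⁻¹) • q.1,
        (1 / 2 * (√(nq q.2))⁻¹) • Fin.tail q.2)) (by unfold Fin.tail; fun_prop))
  convert this using 1
  rw [front]
  ext z
  constructor
  · intro hz
    have hz' : g z = (1 / 2) ^ 2 := hz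
    have hr := K_U hz'.le
    have e : nq (Fin.cons (√(nq (px z)) - 1) (py z) : Fin 3 → ℝ) = (1 / 2) ^ 2 := by
      rw [nq_cons]; exact hz'
    refine ⟨(px z, Fin.cons (√(nq (px z)) - 1) (py z)), ⟨fun h => ?_, fun h => ?_⟩, ?_⟩
    · have h : px z = 0 := h
      rw [h] at hr
      simp [nq] at hr
      linarith
    · have h : (Fin.cons (√(nq (px z)) - 1) (py z) : Fin 3 → ℝ) = 0 := h
      rw [h] at e
      norm_num [nq] at e
    · simp only [e, Fin.cons_zero, Fin.tail_cons]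
      rw [Real.sqrt_sq (by norm_num)]
      have : √(nq (px z)) ≠ 0 := by linarith
      conv_rhs => rw [← app_p z]
      congr 1
      · rw [show (1 + 1 / 2 * (1 / 2 : ℝ)⁻¹ * (√(nq (px z)) - 1)) * (√(nq (px z)))⁻¹ = 1 by
          field_simp; ring, one_smul]
      · norm_num
  · rintro ⟨⟨u, v⟩, ⟨hu, hv⟩, rfl⟩
    have a1 := hp u hu
    have a2 := hp v hv
    have a3 : nq v = v 0 ^ 2 + nq (Fin.tail v) := by rw [← nq_cons, Fin.cons_self_tail]
    have a4 := Real.sq_sqrt (nq_nonneg v)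
    obtain ⟨s, hs⟩ : ∃ s, s = √(nq v) := ⟨_, rfl⟩
    rw [← hs] at a2 a4
    have a5 : -s ≤ v 0 := (abs_le_of_sq_le_sq' (by rw [a4]; exact sq_le_nq v 0) a2.le).1
    have a6 : 0 ≤ 1 + 1 / 2 * s⁻¹ * v 0 := by
      have : -1 ≤ s⁻¹ * v 0 := by
        rw [← div_eq_inv_mul, le_div_iff₀ a2]; linarith
      linarith
    show g _ = _
    simp only [g, px_app, py_app, nq_smul, ← hs]
    rw [Real.sqrt_mul (sq_nonneg _), Real.sqrt_sq (by positivity), mul_assoc _ _ (√(nq u)),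
      inv_mul_cancel₀ a1.ne', (by linarith : nq (Fin.tail v) = s ^ 2 - v 0 ^ 2)]
    field_simp; ring

theorem main : ∃ (n : ℕ) (K : Set (Fin n → ℝ)), Odd n ∧ IsCompact K ∧ (interior K).Nonempty ∧
    IsConnected (frontier K) ∧
    (∃ (U : Set (Fin n → ℝ)) (g : (Fin n → ℝ) → ℝ), IsOpen U ∧ ContDiffOn ℝ ∞ g U ∧
      K ∩ U = {z ∈ U | g z ≤ 0} ∧ frontier K = {z ∈ U | g z = 0} ∧
      ∀ z ∈ frontier K, fderiv ℝ g z ≠ 0) ∧
    (∃ Φ : MvPolynomial (Fin n ⊕ Fin 2) ℝ,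
      (∃ (ξ : Fin n → ℝ) (t w : ℝ), ∑ i, ξ i ^ 2 = 1 ∧
        MvPolynomial.eval (Sum.elim ξ ![t, w]) Φ ≠ 0) ∧
      ∀ (ξ : Fin n → ℝ) (t : ℝ), ∑ i, ξ i ^ 2 = 1 →
        MvPolynomial.eval (Sum.elim ξ
          ![t, (volume (K ∩ {x | ∑ i, ξ i * x i ≤ t})).toReal]) Φ = 0 ∧
        MvPolynomial.eval (Sum.elim ξ
          ![t, (volume (K ∩ {x | t ≤ ∑ i, ξ i * x i})).toReal]) Φ = 0) ∧
    ¬ ∃ A : (Fin n → ℝ) ≃ᵃ[ℝ] (Fin n → ℝ), K = A '' {x | ∑ i, x i ^ 2 ≤ 1} := by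
  have hKU : K ⊆ U := fun z hz => Real.sqrt_pos.1 (by linarith [K_U hz])
  have he : ∀ c : ℝ, c ^ 2 = 1 → g (app (Pi.single 0 c) 0) = 0 := by
    intro c hc
    simp [g, px_app, py_app, nq, Fin.sum_univ_succ, hc]
  refine ⟨5, K, by decide, ?_, ?_, front_conn, ⟨U, fun z => g z - (1 / 2) ^ 2, U_open,
    g_smooth.sub contDiffOn_const, ?_, ?_, fun z hz => ?_⟩, ?_, ?_⟩
  · refine (B_compact 5 5).of_isClosed_subset (isClosed_le g_cont continuous_const) fun z hz => ?_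
    have h1 : g z ≤ _ := hz
    have h2 : nq z = nq (px z) + nq (py z) := by simp only [nq_dot, ← dot_split]
    have h3 := Real.sq_sqrt (nq_nonneg (px z))
    show nq z ≤ 5
    unfold g at h1
    nlinarith [sq_nonneg (√(nq (px z)) - 2), nq_nonneg (py z)]
  · refine ⟨app (Pi.single 0 1) 0, mem_interior.2 ⟨{z | g z < (1 / 2) ^ 2}, 
      fun z hz => show g z ≤ _ from le_of_lt hz,
      isOpen_lt g_cont continuous_const, ?_⟩⟩
    show g _ < _
    rw [he 1 (by simp)]; norm_num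
  · ext z
    simp only [mem_inter_iff, mem_ofPred_eq, sub_nonpos]
    exact and_comm
  · rw [front]
    ext z
    simp only [mem_ofPred_eq, sub_eq_zero]
    exact ⟨fun h => ⟨hKU h.le, h⟩, fun h => h.2⟩
  · rw [fderiv_sub_const]
    rw [front] at hz
    exact fd_ne hz
  · obtain ⟨Φ, h1, h2⟩ := algInt
    exact ⟨Φ, h1, fun ξ t _ => h2 ξ t⟩
  · rintro ⟨A, hA⟩
    have h1 : app (Pi.single 0 1) 0 ∈ K := by
      show g _ ≤ _
      rw [he 1 (by simp)]; norm_num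
    have h2 : app (Pi.single 0 (-1)) 0 ∈ K := by
      show g _ ≤ _
      rw [he (-1) (by simp)]; norm_num
    rw [hA] at h1 h2
    obtain ⟨p, hp, e1⟩ := h1
    obtain ⟨q, hq, e2⟩ := h2
    have h3 : A (midpoint ℝ p q) ∈ K := by
      rw [hA]
      refine ⟨_, ?_, rfl⟩
      have hp : ∑ i, p i ^ 2 ≤ 1 := hp
      have hq : ∑ i, q i ^ 2 ≤ 1 := hq
      show ∑ i, midpoint ℝ p q i ^ 2 ≤ 1
      refine le_trans (Finset.sum_le_sum (g := fun i => (p i ^ 2 + q i ^ 2) / 2) fun i _ => ?_) ?_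
      · simp only [midpoint_eq_smul_add, Pi.smul_apply, Pi.add_apply, smul_eq_mul, invOf_eq_inv]
        nlinarith [sq_nonneg (p i - q i)]
      · rw [← Finset.sum_div, Finset.sum_add_distrib]; linarith
    rw [A.map_midpoint, e1, e2] at h3
    have h4 := K_U h3
    have : px (midpoint ℝ (app (Pi.single 0 1) 0) (app (Pi.single 0 (-1)) 0)) = 0 := by
      rw [midpoint_eq_smul_add]
      show (⅟2 : ℝ) • (px (app _ _) + px (app _ _)) = 0
      rw [px_app, px_app, ← Pi.single_add]; simp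
    rw [this] at h4
    simp [nq] at h4
    linarith

end Pool.Agent.H.MP_b669e1_gt
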